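import Pool.Agent.QMark.Brd

/-!
# The transfer theorem: 2-faces which are not 4-gons and a sample of the facets

Working file of helper56 for MP_f8fadf_co (F32).
-/

set_option autoImplicit false

namespace TRF

open Finset QMark
open scoped InnerProductSpace

variable {ι : Type*} [Fintype ι] [DecidableEq ι] {u : ι → E4} {b : ι → ℝ}

/-- The hyperplane of the facet `v` meets `H_x ∩ H_y ∩ P_W`, where `P_W` is the polyhedron of the
inequalities in `W`. -/
def Lk (u : ι → E4) (b : ι → ℝ) (W : Finset ι) (x y v : ι) : Prop :=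
  ∃ p : E4, (∀ i ∈ W, ⟪u i, p⟫_ℝ ≤ b i) ∧ ⟪u x, p⟫_ℝ = b x ∧ ⟪u y, p⟫_ℝ = b y ∧ ⟪u v, p⟫_ℝ = b v

/-- A pair is good with respect to the sample `W` and the graphs `G v`, `v ∈ W`. -/
def GoodPair (u : ι → E4) (b : ι → ℝ) (W : Finset ι) (G : ι → ι → ι → Prop) (x y : ι) : Prop :=
  x ∉ W ∧ y ∉ W ∧ ∀ v ∈ W, Lk u b W x y v → G v x y

/-- `P_W` contains no line. -/
def NoLine (u : ι → E4) (W : Finset ι) : Prop := ∀ d : E4, d ≠ 0 → ∃ i ∈ W, ⟪u i, d⟫_ℝ ≠ 0

/-- The line through `p` with direction `d` leaves `P_W`. -/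
theorem leave {W : Finset ι} {p d : E4} (hp : ∀ i ∈ W, ⟪u i, p⟫_ℝ ≤ b i)
    (hd : ∃ i ∈ W, 0 < ⟪u i, d⟫_ℝ) :
    ∃ s : ℝ, (∀ i ∈ W, ⟪u i, p + s • d⟫_ℝ ≤ b i) ∧ ∃ v ∈ W, ⟪u v, p + s • d⟫_ℝ = b v := by
  classical
  obtain ⟨i0, hi0, hpos⟩ := hd
  obtain ⟨v, hv, hmin⟩ := exists_min_image (W.filter fun i => 0 < ⟪u i, d⟫_ℝ)
    (fun i => (b i - ⟪u i, p⟫_ℝ) / ⟪u i, d⟫_ℝ) ⟨i0, mem_filter.mpr ⟨hi0, hpos⟩⟩
  rw [mem_filter] at hv
  set s := (b v - ⟪u v, p⟫_ℝ) / ⟪u v, d⟫_ℝ with hs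
  have hs0 : 0 ≤ s := div_nonneg (by linarith [hp v hv.1]) hv.2.le
  refine ⟨s, ?_, v, hv.1, ?_⟩
  · intro i hi
    rw [inner_add_smul]
    rcases lt_or_ge 0 ⟪u i, d⟫_ℝ with h | h
    · have h1 := hmin i (mem_filter.mpr ⟨hi, h⟩)
      have h2 : s * ⟪u i, d⟫_ℝ ≤ b i - ⟪u i, p⟫_ℝ := by
        rw [← le_div_iff₀ h]
        exact h1
      linarith
    · have h1 := hp i hi
      nlinarith
  · rw [inner_add_smul, hs, div_mul_cancel₀ _ hv.2.ne']
    ring

/-- Three facets with a common point in `P` have a common neighbour in the sample. -/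
theorem exists_lk {W : Finset ι} (hW : NoLine u W) {p : E4} (hp : ∀ i ∈ W, ⟪u i, p⟫_ℝ ≤ b i)
    {x y z : ι} (hx : ⟪u x, p⟫_ℝ = b x) (hy : ⟪u y, p⟫_ℝ = b y) (hz : ⟪u z, p⟫_ℝ = b z) :
    ∃ v ∈ W, Lk u b W x y v ∧ Lk u b W y z v ∧ Lk u b W x z v := by
  obtain ⟨d, hd0, hd⟩ := exists_orth (ι := Fin 3) ![u x, u y, u z] (by
    have h1 := finrank_range_le_card (R := ℝ) (![u x, u y, u z] : Fin 3 → E4)
    rw [Fintype.card_fin, Set.finrank] at h1
    omega)
  have hdx : ⟪u x, d⟫_ℝ = 0 := hd 0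
  have hdy : ⟪u y, d⟫_ℝ = 0 := hd 1
  have hdz : ⟪u z, d⟫_ℝ = 0 := hd 2
  have key : ∀ e : E4, ⟪u x, e⟫_ℝ = 0 → ⟪u y, e⟫_ℝ = 0 → ⟪u z, e⟫_ℝ = 0 →
      (∃ i ∈ W, 0 < ⟪u i, e⟫_ℝ) →
      ∃ v ∈ W, Lk u b W x y v ∧ Lk u b W y z v ∧ Lk u b W x z v := by
    intro e hex hey hez hpos
    obtain ⟨s, h1, v, hv, h2⟩ := leave hp hpos
    have hx' : ⟪u x, p + s • e⟫_ℝ = b x := by rw [inner_add_smul, hex, hx]; ring
    have hy' : ⟪u y, p + s • e⟫_ℝ = b y := by rw [inner_add_smul, hey, hy]; ring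
    have hz' : ⟪u z, p + s • e⟫_ℝ = b z := by rw [inner_add_smul, hez, hz]; ring
    exact ⟨v, hv, ⟨_, h1, hx', hy', h2⟩, ⟨_, h1, hy', hz', h2⟩, ⟨_, h1, hx', hz', h2⟩⟩
  obtain ⟨i, hi, hne⟩ := hW d hd0
  rcases lt_or_gt_of_ne hne with h | h
  · apply key (-d) (by rw [inner_neg_right, hdx, neg_zero]) (by rw [inner_neg_right, hdy, neg_zero])
      (by rw [inner_neg_right, hdz, neg_zero])
    exact ⟨i, hi, by rw [inner_neg_right]; linarith⟩
  · exact key d hdx hdy hdz ⟨i, hi, h⟩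

/-- The graphs are triangle-free. -/
def TriFree (W : Finset ι) (G : ι → ι → ι → Prop) : Prop :=
  ∀ v ∈ W, ∀ x y z, G v x y → G v y z → ¬ G v x z

/-- No edge of `P` has three good pairs. -/
theorem no_three {W : Finset ι} {G : ι → ι → ι → Prop} (hW : NoLine u W) (hG : TriFree W G)
    {p : E4} (hp : ∀ i ∈ W, ⟪u i, p⟫_ℝ ≤ b i) {x y z : ι} (hx : ⟪u x, p⟫_ℝ = b x)
    (hy : ⟪u y, p⟫_ℝ = b y) (hz : ⟪u z, p⟫_ℝ = b z) :
    ¬ (GoodPair u b W G x y ∧ GoodPair u b W G y z ∧ GoodPair u b W G x z) := by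
  rintro ⟨⟨-, -, h1⟩, ⟨-, -, h2⟩, ⟨-, -, h3⟩⟩
  obtain ⟨v, hv, k1, k2, k3⟩ := exists_lk hW hp hx hy hz
  exact hG v hv x y z (h1 v hv k1) (h2 v hv k2) (h3 v hv k3)

open Classical in
/-- The 2-faces which are not good. -/
noncomputable def badF (u : ι → E4) (b : ι → ℝ) (W : Finset ι) (G : ι → ι → ι → Prop) :
    Finset (Finset ι) :=
  (faces u b 2).filter fun e => ∃ x ∈ e, ∃ y ∈ e, x ≠ y ∧ ¬ GoodPair u b W G x y

omit [Fintype ι] in
theorem pair_sub {t : Finset ι} {x y : ι} (hx : x ∈ t) (hy : y ∈ t) : ({x, y} : Finset ι) ⊆ t := by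
  intro i hi
  rw [mem_insert, mem_singleton] at hi
  rcases hi with rfl | rfl
  · exact hx
  · exact hy

omit [Fintype ι] in
/-- A triple without a large pair. -/
theorem exists_triple {M : Finset (Finset ι)} {t : Finset ι} (ht : t.card = 4)
    (hM2 : ∀ e ∈ M, e.card = 2) (hM : (M.filter fun e => e ⊆ t).card ≤ 1) :
    ∃ s ⊆ t, s.card = 3 ∧ ∀ e ∈ M, ¬ e ⊆ s := by
  rcases Nat.eq_zero_or_pos (M.filter fun e => e ⊆ t).card with h0 | h0
  · rw [card_eq_zero] at h0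
    obtain ⟨s, hs, hs3⟩ := exists_subset_card_eq (s := t) (n := 3) (by omega)
    refine ⟨s, hs, hs3, fun e he hes => ?_⟩
    have : e ∈ M.filter fun e => e ⊆ t := mem_filter.mpr ⟨he, hes.trans hs⟩
    rw [h0] at this
    exact absurd this (notMem_empty e)
  · obtain ⟨e0, he0⟩ := card_eq_one.mp (le_antisymm hM h0)
    have h1 : e0 ∈ M.filter fun e => e ⊆ t := by rw [he0]; exact mem_singleton_self _
    rw [mem_filter] at h1
    obtain ⟨a, ha⟩ := card_pos.mp (show 0 < e0.card by rw [hM2 e0 h1.1]; norm_num)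
    refine ⟨t.erase a, erase_subset _ _, by rw [card_erase_of_mem (h1.2 ha), ht], ?_⟩
    intro e he hes
    have h2 : e ∈ M.filter fun e => e ⊆ t := mem_filter.mpr ⟨he, hes.trans (erase_subset _ _)⟩
    rw [he0, mem_singleton] at h2
    subst h2
    exact absurd (hes ha) (notMem_erase a t)

/-- A vertex on at most one large 2-face is on a small 2-face which is not good. -/
theorem few_bad {W : Finset ι} {G : ι → ι → ι → Prop} (hW : NoLine u W) (hG : TriFree W G)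
    {D : ℕ} {t : Finset ι} (ht : t ∈ few u b D) :
    ∃ e ∈ badF u b W G, size u b e < D ∧ e ⊆ t := by
  classical
  rw [few, mem_filter] at ht
  obtain ⟨htT, hcard⟩ := ht
  obtain ⟨hc, p, hp, hpa⟩ := mem_tets.mp htT
  obtain ⟨s, hst, hs3, hs⟩ := exists_triple hc big_two hcard
  obtain ⟨x, y, z, hxy, hxz, hyz, rfl⟩ := card_eq_three.mp hs3
  have hx : x ∈ t := hst (by simp)
  have hy : y ∈ t := hst (by simp)
  have hz : z ∈ t := hst (by simp)
  have hpt : ∀ i ∈ t, ⟪u i, p⟫_ℝ = b i := fun i hi => mem_act.mp (hpa ▸ hi)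
  have hno := no_three (b := b) hW hG (p := p) (fun i _ => hp i) (hpt x hx) (hpt y hy) (hpt z hz)
  have hfin : ∀ a c : ι, a ∈ t → c ∈ t → a ≠ c → ({a, c} : Finset ι) ⊆ {x, y, z} →
      ¬ GoodPair u b W G a c → ∃ e ∈ badF u b W G, size u b e < D ∧ e ⊆ t := by
    intro a c ha hc' hac hsub hg
    have hface : ({a, c} : Finset ι) ∈ faces u b 2 :=
      mem_faces.mpr ⟨card_pair hac, t, htT, pair_sub ha hc'⟩
    refine ⟨{a, c}, ?_, ?_, pair_sub ha hc'⟩
    · rw [badF, mem_filter]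
      exact ⟨hface, a, by simp, c, by simp, hac, hg⟩
    · by_contra hge
      exact hs {a, c} (mem_filter.mpr ⟨hface, not_lt.mp hge⟩) hsub
  by_cases h1 : GoodPair u b W G x y
  · by_cases h2 : GoodPair u b W G y z
    · have h3 : ¬ GoodPair u b W G x z := fun h3 => hno ⟨h1, h2, h3⟩
      exact hfin x z hx hz hxz (pair_sub (by simp) (by simp)) h3
    · exact hfin y z hy hz hyz (pair_sub (by simp) (by simp)) h2
  · exact hfin x y hx hy hxy (pair_sub (by simp) (by simp)) h1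

theorem few_card {W : Finset ι} {G : ι → ι → ι → Prop} (hW : NoLine u W) (hG : TriFree W G)
    (D : ℕ) : (few u b D).card ≤ (badF u b W G).card * (D - 1) := by
  classical
  have h1 : few u b D ⊆ ((badF u b W G).filter fun x => size u b x < D).biUnion fun x =>
      (tets u b).filter fun t => x ⊆ t := by
    intro t ht
    obtain ⟨x, hx, hxD, hxt⟩ := few_bad hW hG ht
    rw [few, mem_filter] at ht
    rw [mem_biUnion]
    exact ⟨x, mem_filter.mpr ⟨hx, hxD⟩, mem_filter.mpr ⟨ht.1, hxt⟩⟩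
  refine (card_le_card h1).trans (card_biUnion_le.trans ?_)
  calc ∑ x ∈ (badF u b W G).filter (fun x => size u b x < D),
        ((tets u b).filter fun t => x ⊆ t).card
      ≤ ∑ x ∈ (badF u b W G).filter (fun x => size u b x < D), (D - 1) := by
        apply sum_le_sum
        intro x hx
        have h2 := (mem_filter.mp hx).2
        change size u b x ≤ D - 1
        omega
    _ = ((badF u b W G).filter fun x => size u b x < D).card * (D - 1) := by
        rw [sum_const, smul_eq_mul]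
    _ ≤ _ := Nat.mul_le_mul_right _ (card_le_card (filter_subset _ _))

/-- **The transfer inequality.** -/
theorem transfer (h : SP u b) {W : Finset ι} {G : ι → ι → ι → Prop} (hW : NoLine u W)
    (hG : TriFree W G) (D : ℕ) : (nonq u b).card ≤
      4 * Fintype.card ι + 14 * ((badF u b W G).card * (D - 1)) + 257 * (big u b D).card := by
  have h1 := partI h D
  have h2 := few_card (b := b) hW hG D
  omega

/-- **The transfer theorem.** -/
theorem transfer_sqrt (h : SP u b) {W : Finset ι} {G : ι → ι → ι → Prop} (hW : NoLine u W)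
    (hG : TriFree W G) : ((nonq u b).card : ℝ) ≤
      1600 * (Fintype.card ι) * (1 + Real.sqrt (badF u b W G).card) := by
  set n := Fintype.card ι with hn
  set B := (badF u b W G).card with hB
  rcases Nat.eq_zero_or_pos n with hn0 | hn0
  · have h1 : (nonq u b).card ≤ (faces u b 2).card := card_le_card (filter_subset _ _)
    have h2 := faces_two_le (u := u) (b := b)
    rw [← hn, hn0] at h2
    have h3 : (nonq u b).card = 0 := by omega
    rw [h3, hn0]
    simp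
  -- the threshold
  have hn1 : (1 : ℝ) ≤ n := by exact_mod_cast hn0
  set S := Real.sqrt B with hS
  have hS0 : 0 ≤ S := Real.sqrt_nonneg _
  have hSS : S * S = B := Real.mul_self_sqrt (Nat.cast_nonneg _)
  obtain ⟨D, hD1, hD2⟩ : ∃ D : ℕ, (n : ℝ) / (1 + S) ≤ D ∧ (D : ℝ) ≤ n / (1 + S) + 1 :=
    ⟨⌈(n : ℝ) / (1 + S)⌉₊, Nat.le_ceil _, (Nat.ceil_lt_add_one (by positivity)).le⟩
  have h1 := transfer h hW hG D
  rw [← hn, ← hB] at h1
  have h2 := big_card h D
  rw [← hn] at h2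
  have h1' : ((nonq u b).card : ℝ) ≤ 4 * n + 14 * (B * ((D - 1 : ℕ) : ℝ)) +
      257 * (big u b D).card := by exact_mod_cast h1
  have h2' : ((big u b D).card : ℝ) * D ≤ 3 * (n * (n + 1)) := by exact_mod_cast h2
  have hD0 : (0 : ℝ) < D := lt_of_lt_of_le (by positivity) hD1
  have hDm : ((D - 1 : ℕ) : ℝ) ≤ n / (1 + S) := by
    have : 1 ≤ D := by exact_mod_cast hD0
    rw [Nat.cast_sub this]
    push_cast
    linarith
  have h3 : (B : ℝ) * ((D - 1 : ℕ) : ℝ) ≤ n * S := by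
    calc (B : ℝ) * ((D - 1 : ℕ) : ℝ) ≤ B * (n / (1 + S)) :=
          mul_le_mul_of_nonneg_left hDm (Nat.cast_nonneg _)
      _ = n * S * (S / (1 + S)) := by rw [← hSS]; ring
      _ ≤ n * S * 1 := by
          apply mul_le_mul_of_nonneg_left _ (by positivity)
          rw [div_le_one (by positivity)]
          linarith
      _ = n * S := mul_one _
  have h4 : ((big u b D).card : ℝ) ≤ 6 * n * (1 + S) := by
    have h5 : ((big u b D).card : ℝ) * (n / (1 + S)) ≤ 3 * (n * (n + 1)) :=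
      (mul_le_mul_of_nonneg_left hD1 (Nat.cast_nonneg _)).trans h2'
    have h6 : ((big u b D).card : ℝ) * (n / (1 + S)) * (1 + S) = (big u b D).card * n := by
      field_simp
    have h7 : ((big u b D).card : ℝ) * n ≤ 3 * (n * (n + 1)) * (1 + S) := by
      rw [← h6]
      exact mul_le_mul_of_nonneg_right h5 (by positivity)
    have h8 : ((big u b D).card : ℝ) ≤ 3 * (n + 1) * (1 + S) := by
      have h9 : (0 : ℝ) < n := by linarith
      refine le_of_mul_le_mul_right ?_ h9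
      calc ((big u b D).card : ℝ) * n ≤ 3 * (n * (n + 1)) * (1 + S) := h7
        _ = 3 * (n + 1) * (1 + S) * n := by ring
    calc ((big u b D).card : ℝ) ≤ 3 * (n + 1) * (1 + S) := h8
      _ ≤ 6 * n * (1 + S) := by nlinarith
  nlinarith

end TRF
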